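import Pool.Agent.Lib.MP_17af9c_lc.Transfer

/-!
# #SUBFORESTS is #P-complete
-/

namespace Pool.Agent.Results.MP_17af9c_lc.SubforestsComplete

open Pool.Agent.Lib.CountingForests

/-- Counting the isomorphism classes of subforests of a tree is #P-complete. -/
theorem result : SharpPComplete treeWord numSubforests := sharpPComplete

end Pool.Agent.Results.MP_17af9c_lc.SubforestsComplete
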